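import Pool.Agent.helper41.G5.Spec

/-! # DH5.SH (helper18): Schur test -/

set_option autoImplicit false

namespace DH5

open Finset

theorem SH : SH_stmt := by
  intro Z J _ _ a L hL hr hc x y
  have h1 : |∑ z, ∑ j, y z * a z j * x j| ≤ ∑ p : Z × J, (√|a p.1 p.2| * |y p.1|) * (√|a p.1 p.2| * |x p.2|) := by
    rw [← Finset.univ_product_univ, Finset.sum_product]
    refine (Finset.abs_sum_le_sum_abs _ _).trans (Finset.sum_le_sum fun z _ => ?_)
    refine (Finset.abs_sum_le_sum_abs _ _).trans (Finset.sum_le_sum fun j _ => ?_)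
    rw [abs_mul, abs_mul]
    have h := Real.mul_self_sqrt (abs_nonneg (a z j))
    apply le_of_eq
    calc |y z| * |a z j| * |x j| = |y z| * (√|a z j| * √|a z j|) * |x j| := by rw [h]
      _ = _ := by ring
  have h2 := Finset.sum_mul_sq_le_sq_mul_sq (Finset.univ : Finset (Z × J)) (fun p => √|a p.1 p.2| * |y p.1|)
    (fun p => √|a p.1 p.2| * |x p.2|)
  have h3 : ∑ p : Z × J, (√|a p.1 p.2| * |y p.1|) ^ 2 ≤ L * ∑ z, y z ^ 2 := by
    rw [← Finset.univ_product_univ, Finset.sum_product, Finset.mul_sum]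
    refine Finset.sum_le_sum fun z _ => ?_
    have e : ∀ j, (√|a z j| * |y z|) ^ 2 = |a z j| * y z ^ 2 := by
      intro j
      rw [mul_pow, Real.sq_sqrt (abs_nonneg _), sq_abs]
    rw [Finset.sum_congr rfl fun j _ => e j, ← Finset.sum_mul]
    exact mul_le_mul_of_nonneg_right (hr z) (sq_nonneg _)
  have h4 : ∑ p : Z × J, (√|a p.1 p.2| * |x p.2|) ^ 2 ≤ L * ∑ j, x j ^ 2 := by
    rw [← Finset.univ_product_univ, Finset.sum_product_right, Finset.mul_sum]
    refine Finset.sum_le_sum fun j _ => ?_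
    have e : ∀ z, (√|a z j| * |x j|) ^ 2 = |a z j| * x j ^ 2 := by
      intro z
      rw [mul_pow, Real.sq_sqrt (abs_nonneg _), sq_abs]
    rw [Finset.sum_congr rfl fun z _ => e z, ← Finset.sum_mul]
    exact mul_le_mul_of_nonneg_right (hc j) (sq_nonneg _)
  have hy : 0 ≤ ∑ z, y z ^ 2 := Finset.sum_nonneg fun z _ => sq_nonneg _
  have hx : 0 ≤ ∑ j, x j ^ 2 := Finset.sum_nonneg fun j _ => sq_nonneg _
  refine h1.trans ?_
  refine le_of_sq_le_sq ?_ (mul_nonneg hL (Real.sqrt_nonneg _))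
  rw [mul_pow, Real.sq_sqrt (mul_nonneg hy hx)]
  refine h2.trans ?_
  calc _ ≤ (L * ∑ z, y z ^ 2) * (L * ∑ j, x j ^ 2) :=
        mul_le_mul h3 h4 (Finset.sum_nonneg fun _ _ => sq_nonneg _) (mul_nonneg hL hy)
    _ = _ := by ring

end DH5
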